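import Pool.Agent.H42.DCFinal

set_option autoImplicit false

namespace Pool.Agent.Results.MP_ece58e_al.FiniteDoubleCosets

universe u

/-- A group which is the union of finitely many double cosets `C t C` of a cyclic subgroup `C`
contains `C` with finite index. -/
theorem result :
    ∀ (G : Type u) [Group G] (C : Subgroup G) (T : Set G),
      IsCyclic C → T.Finite →
      (∀ g : G, ∃ c₁ ∈ C, ∃ t ∈ T, ∃ c₂ ∈ C, g = c₁ * t * c₂) →
      Finite (G ⧸ C) := by
  intro G _ C T hC hT h
  obtain ⟨⟨c, hcC⟩, hc⟩ := hC.exists_generator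
  have hCz : C = Subgroup.zpowers c := by
    apply le_antisymm
    · intro x hx
      obtain ⟨k, hk⟩ := hc ⟨x, hx⟩
      refine ⟨k, ?_⟩
      have := congrArg Subtype.val hk
      simpa using this
    · rw [Subgroup.zpowers_le]
      exact hcC
  subst hCz
  refine Pool.Agent.H42.finite_of_double_cosets c hT ?_
  intro g
  obtain ⟨c₁, ⟨a, rfl⟩, t, ht, c₂, ⟨b, rfl⟩, hg⟩ := h g
  exact ⟨t, ht, a, b, hg⟩

end Pool.Agent.Results.MP_ece58e_al.FiniteDoubleCosets
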